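import Pool.Agent.H417B.WRES
import Pool.Agent.H417B.WFIN
import Pool.Agent.H417B.GMAINR
import Pool.Agent.H417B.D8R
import Pool.Agent.H417B.G1a
import Pool.Agent.H417B.G1b
import Pool.Agent.H417B.G1c
import Pool.Agent.H417B.G1d
import Pool.Agent.H417B.G1
import Pool.Agent.H417B.G2
import Pool.Agent.H417B.G3
import Pool.Agent.H417B.G4
import Pool.Agent.H417B.G5
import Pool.Agent.H417B.G6
import Pool.Agent.H417B.GU
import Pool.Agent.H417B.G7
import Pool.Agent.H417B.G9a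
import Pool.Agent.H417B.G9b
import Pool.Agent.H417B.G9c
import Pool.Agent.H417B.G9
import Pool.Agent.H417B.Y1
import Pool.Agent.H417B.Y4
import Pool.Agent.H417B.Y5
import Pool.Agent.H417B.Y6
import Pool.Agent.H417B.W2
import Pool.Agent.H417B.W3
import Pool.Agent.H417B.W6
import Pool.Agent.H417B.W7
import Pool.Agent.H417B.W8
import Pool.Agent.H417B.W9
import Pool.Agent.H712R5.BO.B1
import Pool.Agent.H712R5.BO.B2a
import Pool.Agent.H712R5.BO.B2
import Pool.Agent.H712R5.BO.B2c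
import Pool.Agent.H712R5.BO.B3
import Pool.Agent.H712R5.BO.B4v
import Pool.Agent.H712R5.BO.B4u
import Pool.Agent.H712R5.BO.B4
import Pool.Agent.H712R5.BO.B5
import Pool.Agent.H712R5.BO.B6
import Pool.Agent.H712R5.BO.B7
import Pool.Agent.H712R5.BO.B8
import Pool.Agent.H712R5.BO.B9
import Pool.Agent.H712R5.BO.B10
import Pool.Agent.H712R5.BO.B11
import Pool.Agent.H712R5.BO.B12
import Pool.Agent.H712R5.BO.B13
import Pool.Agent.H712R5.BO.C8
import Pool.Agent.H712R5.BO.C10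
import Pool.Agent.H712R5.BO.C11
import Pool.Agent.H712R5.BO.C12
import Pool.Agent.H712R5.BO.D1
import Pool.Agent.H712R5.BO.D2
import Pool.Agent.H712R5.BO.D3
import Pool.Agent.H712R5.BO.D4
import Pool.Agent.H712R5.BO.D5
import Pool.Agent.H712R5.BO.D6
import Pool.Agent.H712R5.BO.D7
import Pool.Agent.H712R5.BO.Z1
import Pool.Agent.H712R5.BO.Z3
import Pool.Agent.H712R5.BO.Z5

/-!
# Weighted translation operators have nontrivial invariant subspaces (MP_40e650_an)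

For every measure-preserving map `T` of `(0,1)` and every bounded measurable weight `φ` with `log |φ|`
integrable on `(0,1)` (`log 0 = 0`: the weight may vanish), the weighted translation operator
`A f(x) = φ(x) f(Tx)` on `L²(0,1)` has a closed invariant subspace other than `0` and the whole space.
-/

set_option autoImplicit false
open MeasureTheory

namespace Pool.Agent.Results.MP_40e650_an.WeightedTranslations
open Pool.Agent.H712R5.BO Pool.Agent.H417B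

/-- For every measure-preserving map `T` of `(0,1)` and every bounded measurable `φ` with
`log |φ|` integrable (with the convention `log 0 = 0`), every bounded operator `A` on complex `L²(0,1)` with
`(A f)(x) = φ(x) f(Tx)` has a closed invariant subspace other than `0` and the whole space. -/
theorem result : ∀ T : ℝ → ℝ,
    MeasurePreserving T (volume.restrict (Set.Ioo (0:ℝ) 1)) (volume.restrict (Set.Ioo (0:ℝ) 1)) →
    ∀ (φ : ℝ → ℂ) (R : ℝ), Measurable φ → (∀ x, ‖φ x‖ ≤ R) →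
    IntegrableOn (fun x => Real.log ‖φ x‖) (Set.Ioo (0:ℝ) 1) →
    ∀ A : Lp ℂ (2 : ENNReal) (volume.restrict (Set.Ioo (0:ℝ) 1)) →L[ℂ]
        Lp ℂ (2 : ENNReal) (volume.restrict (Set.Ioo (0:ℝ) 1)),
    (∀ f : Lp ℂ (2 : ENNReal) (volume.restrict (Set.Ioo (0:ℝ) 1)),
      (A f : ℝ → ℂ) =ᵐ[volume.restrict (Set.Ioo (0:ℝ) 1)]
        fun x => φ x * (f : ℝ → ℂ) (T x)) →
    ∃ V : Submodule ℂ (Lp ℂ (2 : ENNReal) (volume.restrict (Set.Ioo (0:ℝ) 1))),
      IsClosed (V : Set (Lp ℂ (2 : ENNReal) (volume.restrict (Set.Ioo (0:ℝ) 1)))) ∧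
      V ≠ ⊥ ∧ V ≠ ⊤ ∧ ∀ v ∈ V, A v ∈ V := by
  have hB2 : P_B2 := t_B2 t_B2a t_B1
  have hB3 : P_B3 := t_B3 t_B1 hB2 t_B2c
  have hB4u : P_B4u := t_B4u t_B1 t_B4v
  have hB4 : P_B4 := t_B4 t_B1 hB3 hB4u
  have hB5 : P_B5 := t_B5 t_B1 hB4 hB4u
  have hB6 : P_B6 := t_B6 t_B1 hB4u hB5
  have hB8 : P_B8 := t_B8 hB6 (t_B7 t_B1)
  have hB9 : P_B9 := t_B9 t_B1 hB4u hB8
  have hB12 : P_B12 := t_B12 t_B1 t_B10 (t_B11 hB4 hB9)
  have hB13 : P_B13 := t_B13 hB2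
  have hD2 : P_D2 := t_D2 hB2 t_D1
  have hD7 : P_D7 := t_D7 hB4u t_D1 (t_D3 hD2) (t_D4 t_B1) (t_D6 t_D5)
  have hC12 : P_C12 := t_C12 t_B4v t_C10 t_C11
  have hZ3 : P_Z3 := t_Z3 t_Z1
  have hG1b : P_G1b := t_G1b t_G1a
  have hG1c : P_G1c := t_G1c hG1b
  have hG1 : P_G1 := t_G1 hG1c (t_G1d t_G1a hG1b)
  have hG3 : P_G3 := t_G3 t_G2 t_G4 t_B4v
  have hG9 : P_G9 := t_G9 (t_G9a t_G1a hG1b hG1c) t_G9b t_G9c
  have hGM : P_GMAINR := t_GMAINR t_B1 hB12 hB13 hB4u t_B4v hD7 t_D8R hG1 t_G2 hG3 t_G4 t_G5 t_G6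
    t_GU t_G7 t_C8 hG9 hC12
  have hY6 : P_Y6 := t_Y6 t_Z1 t_Y4 t_Y5
  have hW6 : P_W6 := t_W6 t_Z1 t_Y4 t_Y5
  have hW9 : P_W9 := t_W9 (t_W7 t_Z1 t_Y5) t_W8 t_Z5
  have hF : P_WFIN := t_WFIN hGM t_Z1 hZ3 t_Y1 t_W2 t_W3 hY6 hW6 hW9
  exact t_WRES hF

end Pool.Agent.Results.MP_40e650_an.WeightedTranslations
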